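import Pool.Agent.MP_db8016_pr.HS.All

/-! Stacks of independent cookies whose accumulated mean drifts lie in a half-space. -/

namespace Pool.Agent.MP_db8016_pr.BZ
open MeasureTheory ProbabilityTheory Filter Topology
open scoped ENNReal Classical

lemma IndAuxH.closed_sum {D : Type} [Fintype D] (F : List D → ℝ) (h0 : F [] = 0)
    (h : ∀ w, 0 ≤ F w) (B : Finset (List D)) (hB : ∀ w s, w ++ [s] ∈ B → w ∈ B) :
    ∑ w ∈ B, F w ≤ ∑ w ∈ B, ∑ s, F (w ++ [s]) := by
  rw [← Finset.sum_product' (f := fun w s => F (w ++ [s])), ← Finset.sum_image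
    (f := F) (g := fun x : List D × D => x.1 ++ [x.2]) fun x _ y _ e => by
      have := List.append_inj' e rfl
      exact Prod.ext this.1 (by simpa using this.2), ← Finset.sum_erase B h0]
  refine Finset.sum_le_sum_of_subset_of_nonneg (fun w hw => ?_) fun w _ _ => h w
  obtain ⟨h1, h2⟩ := Finset.mem_erase.1 hw
  obtain ⟨w', s, rfl⟩ := (List.eq_nil_or_concat' w).resolve_left h1
  exact Finset.mem_image.2 ⟨(w', s), Finset.mem_product.2 ⟨hB _ _ h2, Finset.mem_univ _⟩, rfl⟩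

theorem ind_all (d : ℕ) (hd : 2 ≤ d)
    (μ : Measure ((Fin d → ℤ) → Fin d × Bool → ℕ → ℝ)) [IsProbabilityMeasure μ]
    (hind : iIndepFun (fun (z : Fin d → ℤ) (ω : (Fin d → ℤ) → Fin d × Bool → ℕ → ℝ) => ω z) μ)
    (hid : ∀ z : Fin d → ℤ,
      IdentDistrib (fun ω : (Fin d → ℤ) → Fin d × Bool → ℕ → ℝ => ω z) (fun ω => ω 0) μ μ)
    (hsum : ∀ᵐ ω ∂μ, ∀ z i, ∑ e, ω z e i = 1)
    (κ : ℝ) (hκ : 0 < κ) (hell : ∀ᵐ ω ∂μ, ∀ z e i, κ ≤ ω z e i)
    (P₀ : Measure (ℕ → Fin d → ℤ)) [IsProbabilityMeasure P₀]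
    (hP₀ : ∀ (e : ℕ → Fin d × Bool) (n : ℕ), P₀ {X | ∀ i ≤ n, X i = HD.pos e i} =
      ∫⁻ ω, ENNReal.ofReal (∏ i ∈ Finset.range n, ω (HD.pos e i) (e i) (HD.visits e i)) ∂μ)
    (N : ℕ) (hBD : ∀ᵐ ω ∂μ, ∀ z e i, N ≤ i → ω z e i = 1 / (2 * (d : ℝ)))
    (hc : iIndepFun (fun (i : ℕ) (ω : (Fin d → ℤ) → Fin d × Bool → ℕ → ℝ) e => ω 0 e i) μ)
    (m : Fin d → ℝ) (hm : m ≠ 0) (δ : ℕ → ℝ)
    (hδ : ∀ i, δ i = ∫ ω, ∑ s, ω 0 s i * ∑ k, (HD.step s k : ℝ) * m k ∂μ)
    (hS : ∀ j, 0 ≤ ∑ i ∈ Finset.range j, δ i) (h8 : 8 ≤ d ∨ ∃ i, δ i ≠ 0)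
    (l : Fin d → ℝ) : P₀ (Tr l) = 0 ∨ P₀ (Tr l) = 1 := by
  let P : List (Fin d × Bool) → ℝ := fun w => ∫ ω, ∏ j : Fin w.length, ω 0 (w.get j) j ∂μ
  have hb : ∀ᵐ ω ∂μ, ∀ s i, κ ≤ ω 0 s i ∧ ω 0 s i ≤ 1 := by
    filter_upwards [hsum, hell] with ω a1 a2 s i
    refine ⟨a2 _ _ _, ?_⟩
    rw [← a1 0 i]
    exact Finset.single_le_sum (f := fun e => ω 0 e i) (fun e _ => hκ.le.trans (a2 _ _ _))
      (Finset.mem_univ s)
  have hi : ∀ w : List (Fin d × Bool), Integrable (fun ω : (Fin d → ℤ) → Fin d × Bool → ℕ → ℝ =>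
      ∏ j : Fin w.length, ω 0 (w.get j) j) μ := fun w => by
    refine Integrable.of_bound (Measurable.aestronglyMeasurable (by fun_prop)) 1 ?_
    filter_upwards [hb] with ω h
    rw [Real.norm_of_nonneg (Finset.prod_nonneg fun j _ => hκ.le.trans (h _ _).1)]
    exact Finset.prod_le_one (fun j _ => hκ.le.trans (h _ _).1) fun j _ => (h _ _).2
  have P0 : ∀ w, 0 < P w := fun w => by
    refine lt_of_lt_of_le (show 0 < ∫ _, κ ^ w.length ∂μ by simp [hκ])
      (integral_mono_ae (integrable_const _) (hi w) ?_)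
    filter_upwards [hb] with ω h
    simpa using Finset.prod_le_prod (s := Finset.univ) (f := fun _ : Fin w.length => κ)
      (fun j _ => hκ.le) fun j _ => (h (w.get j) j).1
  have P1 : ∀ w, ∑ s, P (w ++ [s]) = P w := fun w => by
    rw [← integral_finsetSum _ fun s _ => hi _]
    refine integral_congr_ae ?_
    filter_upwards [hsum] with ω h
    have : ∀ s, ∏ j : Fin (w ++ [s]).length, ω 0 ((w ++ [s]).get j) j =
        (∏ j : Fin w.length, ω 0 (w.get j) j) * ω 0 s w.length := fun s => by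
      rw [← Fin.prod_congr' _ (show w.length + 1 = (w ++ [s]).length by simp),
        Fin.prod_univ_castSucc]
      simp
    simp only [this, ← Finset.mul_sum, h, mul_one]
  have ha : ∀ w : List (Fin d × Bool), P w * δ w.length =
      ∫ ω, (∏ j : Fin w.length, ω 0 (w.get j) j) *
        ∑ s, ω 0 s w.length * ∑ k, (HD.step s k : ℝ) * m k ∂μ := fun w => by
    have h2 := (hc.comp (fun j (b : Fin d × Bool → ℝ) => if h : j < w.length then
        b (w.get ⟨j, h⟩) else ∑ s, b s * ∑ k, (HD.step s k : ℝ) * m k) fun j => by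
          split_ifs <;> fun_prop).indepFun_finsetProd_of_notMem (s := Finset.range w.length)
      (i := w.length) (fun j => by
        simp only [Function.comp_def]
        split_ifs <;> fun_prop) (by simp)
    have h3 : (∏ j ∈ Finset.range w.length, ((fun b : Fin d × Bool → ℝ => if h : j < w.length then
        b (w.get ⟨j, h⟩) else ∑ s, b s * ∑ k, (HD.step s k : ℝ) * m k) ∘
          fun (ω : (Fin d → ℤ) → Fin d × Bool → ℕ → ℝ) e => ω 0 e j)) =
        fun ω => ∏ j : Fin w.length, ω 0 (w.get j) j := by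
      funext ω
      rw [Finset.prod_apply, ← Fin.prod_univ_eq_prod_range]
      exact Finset.prod_congr rfl fun j _ => dif_pos j.2
    rw [h3] at h2
    simp only [Function.comp_def, lt_irrefl, dite_false] at h2
    rw [h2.integral_fun_mul_eq_mul_integral (Measurable.aestronglyMeasurable (by fun_prop))
      (Measurable.aestronglyMeasurable (by fun_prop)), hδ]
  refine hs_all d hd μ hind hid hsum κ hκ hell P₀ hP₀ m hm _ ha N (fun w hw => ?_) (fun B hB => ?_)
    (h8.imp_right fun ⟨i, h⟩ => ⟨List.replicate i (⟨0, by omega⟩, true),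
      mul_ne_zero (P0 _).ne' (by rwa [List.length_replicate])⟩) l
  · refine mul_nonneg (P0 w).le (le_of_eq ((hδ _).trans (integral_eq_zero_of_ae ?_)).symm)
    filter_upwards [hBD] with ω h
    simp only [h 0 _ _ hw, ← Finset.mul_sum, Pi.zero_apply]
    refine mul_eq_zero_of_right _ ?_
    rw [Fintype.sum_prod_type]
    refine Finset.sum_eq_zero fun j _ => ?_
    rw [Fintype.sum_bool, ← Finset.sum_add_distrib]
    refine Finset.sum_eq_zero fun k _ => ?_
    by_cases hk : k = j <;> simp [HD.step, hk]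
  · have h1 := IndAuxH.closed_sum (fun w => P w * ∑ i ∈ Finset.range w.length, δ i) (by simp)
      (fun w => mul_nonneg (P0 w).le (hS _)) B hB
    simp only [List.length_append, List.length_singleton, ← Finset.sum_mul, P1,
      Finset.sum_range_succ, mul_add, Finset.sum_add_distrib] at h1
    linarith

end Pool.Agent.MP_db8016_pr.BZ
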